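import Pool.Agent.Lib_helper33.NF.NFL

/-!
# Block NFS: a normal subgroup of finite index does not act by scalars
-/

set_option autoImplicit false

namespace Pool.Agent.NF

open Matrix

section NFS

variable {C : Type*} [Field C] (A : ValuationSubring C) {Γ : Type*} [Group Γ] {D : ℕ}
  {ρ : Γ →* Matrix (Fin D) (Fin D) C}
  {ρ' : Γ →* Matrix (Fin D) (Fin D) (IsLocalRing.ResidueField A)}

/-- every nonzero matrix is a multiple of the image of an element of the group ring with nonzero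
reduction -/
theorem nfs_scale (hspan : Submodule.span (IsLocalRing.ResidueField A) (Set.range ρ') = ⊤)
    (htr : ∀ γ, ∃ t : A, (t : C) = (ρ γ).trace ∧ IsLocalRing.residue A t = (ρ' γ).trace)
    (X : Matrix (Fin D) (Fin D) C) (hX : X ≠ 0) :
    ∃ (c : C) (x : MonoidAlgebra A Γ), c ≠ 0 ∧ nfl_phi A ρ x = c • X ∧ nfl_psi A ρ' x ≠ 0 := by
  classical
  have hr0 : ∀ a : Fin D × Fin D, ∃ r, nfl_psi A ρ' r = Matrix.single a.1 a.2 1 :=
    fun a => nfl_surj A hspan _
  choose r0 hr0 using hr0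
  have hb := nfl_basis A hspan htr r0 hr0
  have hX0 : X ∈ Submodule.span C (Set.range fun a => nfl_phi A ρ (r0 a)) := by
    rw [hb]
    exact Submodule.mem_top
  obtain ⟨c, hc⟩ := (Submodule.mem_span_range_iff_exists_fun C).1 hX0
  have hcne : ∃ a, c a ≠ 0 := by
    by_contra hne
    push Not at hne
    apply hX
    rw [← hc]
    exact Finset.sum_eq_zero fun a _ => by rw [hne, zero_smul]
  obtain ⟨a0, ha0, t, ht1, ht2⟩ := nfl_scale A c hcne
  refine ⟨(c a0)⁻¹, ∑ a, t a • r0 a, inv_ne_zero ha0, ?_, ?_⟩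
  · rw [map_sum, ← hc, Finset.smul_sum]
    refine Finset.sum_congr rfl fun a _ => ?_
    rw [map_smul, nfl_smulMC, ht2, smul_smul]
  · intro h
    have h6 := congrFun (congrFun h a0.1) a0.2
    rw [map_sum, Matrix.sum_apply, Finset.sum_eq_single a0] at h6
    · rw [map_smul, nfl_smulMK, hr0, ht1, map_one, one_smul, Matrix.single_apply_same] at h6
      exact one_ne_zero h6
    · intro a _ ha
      rw [map_smul, nfl_smulMK, hr0, Matrix.smul_apply, Matrix.single_apply_of_ne, smul_zero]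
      intro h
      exact ha (Prod.ext h.1 h.2)
    · intro h
      exact absurd (Finset.mem_univ _) h

/-- a matrix from the group ring whose reduction is a nonzero scalar is not a zero divisor -/
theorem nfs_cancel (hspan : Submodule.span (IsLocalRing.ResidueField A) (Set.range ρ') = ⊤)
    (htr : ∀ γ, ∃ t : A, (t : C) = (ρ γ).trace ∧ IsLocalRing.residue A t = (ρ' γ).trace)
    (z : MonoidAlgebra A Γ) {u : IsLocalRing.ResidueField A} (hu : u ≠ 0)
    (hz : nfl_psi A ρ' z = u • 1) {X : Matrix (Fin D) (Fin D) C}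
    (hX : nfl_phi A ρ z * X = 0) : X = 0 := by
  by_contra hne
  obtain ⟨c, x, hc, h1, h2⟩ := nfs_scale A hspan htr X hne
  have h3 : nfl_phi A ρ (z * x) = 0 := by
    rw [map_mul, h1, mul_smul_comm, hX, smul_zero]
  have h4 := nfl_ker A hspan htr h3
  rw [map_mul, hz, smul_mul_assoc, one_mul] at h4
  exact h2 ((smul_eq_zero.1 h4).resolve_left hu)

/-- a scalar in the image of the principal congruence subgroup reduces to `1` -/
theorem nfs_scalar (hD : 0 < D)
    (hspan : Submodule.span (IsLocalRing.ResidueField A) (Set.range ρ') = ⊤)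
    (htr : ∀ γ, ∃ t : A, (t : C) = (ρ γ).trace ∧ IsLocalRing.residue A t = (ρ' γ).trace)
    {g : Γ} (hg : ρ' g = 1) {c : C} (hc : ρ g = c • 1) :
    ∃ t : A, (t : C) = c ∧ IsLocalRing.residue A t = 1 := by
  have : Nonempty (Fin D) := ⟨⟨0, hD⟩⟩
  have h10 : (1 : Matrix (Fin D) (Fin D) (IsLocalRing.ResidueField A)) ≠ 0 := one_ne_zero
  have hmem : c ∈ A := by
    by_contra hcA
    have hc0 : c ≠ 0 := fun h => hcA (h ▸ A.zero_mem)
    have hi : c⁻¹ ∈ A := (A.mem_or_inv_mem c).resolve_left hcA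
    have h1 : nfl_phi A ρ ((⟨c⁻¹, hi⟩ : A) • MonoidAlgebra.of A Γ g - 1) = 0 := by
      rw [map_sub, map_smul, map_one, nfl_smulMC, nfl_phi_of, hc, smul_smul,
        inv_mul_cancel₀ hc0, one_smul, sub_self]
    have h2 := nfl_ker A hspan htr h1
    rw [map_sub, map_smul, map_one, nfl_smulMK, nfl_psi_of, hg] at h2
    have h3 : IsLocalRing.residue A (⟨c⁻¹, hi⟩ : A) = 0 := by
      rw [IsLocalRing.residue_eq_zero_iff, IsLocalRing.mem_maximalIdeal, mem_nonunits_iff]
      intro hu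
      obtain ⟨b, hb⟩ := hu.exists_right_inv
      have h4 : c⁻¹ * (b : C) = 1 := congrArg Subtype.val hb
      have h5 : (b : C) = c := by
        have h6 := congrArg (fun y => c * y) h4
        simp only [mul_one] at h6
        rw [← mul_assoc, mul_inv_cancel₀ hc0, one_mul] at h6
        exact h6
      exact hcA (h5 ▸ b.2)
    rw [h3, zero_smul, zero_sub, neg_eq_zero] at h2
    exact h10 h2
  refine ⟨⟨c, hmem⟩, rfl, ?_⟩
  have h1 : nfl_phi A ρ (MonoidAlgebra.of A Γ g - (⟨c, hmem⟩ : A) • 1) = 0 := by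
    rw [map_sub, map_smul, map_one, nfl_smulMC, nfl_phi_of, hc, sub_self]
  have h2 := nfl_ker A hspan htr h1
  rw [map_sub, map_smul, map_one, nfl_smulMK, nfl_psi_of, hg, sub_eq_zero] at h2
  have h3 := congrFun (congrFun h2 ⟨0, hD⟩) ⟨0, hD⟩
  rw [Matrix.smul_apply, Matrix.one_apply_eq, smul_eq_mul, mul_one] at h3
  exact h3.symm

theorem nfs_pow {V : Type*} [LinearOrderedCommGroupWithZero V] {v : V} {m : ℕ} (hm : m ≠ 0)
    (h : v ^ m = 1) : v = 1 := by
  rcases lt_trichotomy v 1 with h1 | h1 | h1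
  · exact absurd h (pow_lt_one₀ zero_le h1 hm).ne
  · exact h1
  · exact absurd h (one_lt_pow₀ h1 hm).ne'

/-- an `m`-th root in `1 + 𝔪` of an element of `1 + 𝔪` -/
theorem nfs_root [IsAlgClosed C] {m : ℕ} (hm : m ≠ 0) (c : A)
    (hc : IsLocalRing.residue A c = 1) :
    ∃ c' : A, c' ^ m = c ∧ IsLocalRing.residue A c' = 1 := by
  have hmon : (Polynomial.X ^ m - Polynomial.C (c : C)).Monic :=
    Polynomial.monic_X_pow_sub_C _ hm
  have hsp : (Polynomial.X ^ m - Polynomial.C (c : C)).Splits := IsAlgClosed.splits _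
  have h1 := hsp.eval_eq_prod_roots_of_monic hmon 1
  have hroot : ∀ x : C, x ∈ (Polynomial.X ^ m - Polynomial.C (c : C)).roots →
      x ^ m = (c : C) := by
    intro x hx
    have h2 := Polynomial.isRoot_of_mem_roots hx
    rw [Polynomial.IsRoot.def, Polynomial.eval_sub, Polynomial.eval_pow, Polynomial.eval_X,
      Polynomial.eval_C, sub_eq_zero] at h2
    exact h2
  have hvc : A.valuation (c : C) = 1 := by
    rw [← A.valuation_eq_one_iff]
    by_contra hu
    have h3 : IsLocalRing.residue A c = 0 := by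
      rw [IsLocalRing.residue_eq_zero_iff, IsLocalRing.mem_maximalIdeal, mem_nonunits_iff]
      exact hu
    rw [hc] at h3
    exact one_ne_zero h3
  have hmem : ∀ x : C, x ^ m = c → x ∈ A := by
    intro x hx
    rw [← A.valuation_le_one_iff]
    have h3 : A.valuation x ^ m = 1 := by rw [← map_pow, hx, hvc]
    exact (nfs_pow hm h3).le
  by_contra hne
  push Not at hne
  have h2 : A.valuation ((1 : C) - c) = 1 := by
    have h3 : Polynomial.eval (1 : C) (Polynomial.X ^ m - Polynomial.C (c : C)) = 1 - (c : C) := by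
      simp
    rw [← h3, h1, map_multiset_prod]
    refine Multiset.prod_eq_one fun y hy => ?_
    rw [Multiset.mem_map] at hy
    obtain ⟨_, hy', rfl⟩ := hy
    rw [Multiset.mem_map] at hy'
    obtain ⟨x, hx, rfl⟩ := hy'
    have hxm := hroot x hx
    have hxA := hmem x hxm
    have h4 : IsUnit (1 - (⟨x, hxA⟩ : A)) := by
      by_contra hu
      have h5 : IsLocalRing.residue A (1 - (⟨x, hxA⟩ : A)) = 0 := by
        rw [IsLocalRing.residue_eq_zero_iff, IsLocalRing.mem_maximalIdeal, mem_nonunits_iff]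
        exact hu
      rw [map_sub, map_one, sub_eq_zero] at h5
      exact hne ⟨x, hxA⟩ (Subtype.ext hxm) h5.symm
    rw [A.valuation_eq_one_iff] at h4
    exact h4
  have h3 : (1 - c : A) ∈ IsLocalRing.maximalIdeal A := by
    rw [← IsLocalRing.residue_eq_zero_iff, map_sub, map_one, hc, sub_self]
  rw [A.valuation_lt_one_iff] at h3
  exact h3.ne h2

/-- if a power of `g` with exponent prime to `p` is scalar, so is `g` -/
theorem nfs_prime [IsAlgClosed C] {p : ℕ} [CharP (IsLocalRing.ResidueField A) p] (hD : 0 < D)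
    (hspan : Submodule.span (IsLocalRing.ResidueField A) (Set.range ρ') = ⊤)
    (htr : ∀ γ, ∃ t : A, (t : C) = (ρ γ).trace ∧ IsLocalRing.residue A t = (ρ' γ).trace)
    {g : Γ} (hg : ρ' g = 1) {m : ℕ} (hm : ¬ p ∣ m) {c : C} (hc : ρ (g ^ m) = c • 1) :
    ∃ c' : C, ρ g = c' • 1 := by
  have hm0 : m ≠ 0 := fun h => hm (h ▸ dvd_zero p)
  obtain ⟨t, rfl, ht⟩ := nfs_scalar A hD hspan htr
    (show ρ' (g ^ m) = 1 by rw [map_pow, hg, one_pow]) hc
  obtain ⟨c', h1, h2⟩ := nfs_root A hm0 t ht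
  have hu : IsUnit c' := by
    by_contra hu
    have h3 : IsLocalRing.residue A c' = 0 := by
      rw [IsLocalRing.residue_eq_zero_iff, IsLocalRing.mem_maximalIdeal, mem_nonunits_iff]
      exact hu
    rw [h2] at h3
    exact one_ne_zero h3
  obtain ⟨b, hb⟩ := hu.exists_right_inv
  have hbr : IsLocalRing.residue A b = 1 := by
    have h3 := congrArg (IsLocalRing.residue A) hb
    rw [map_mul, map_one, h2, one_mul] at h3
    exact h3
  set y : MonoidAlgebra A Γ := b • MonoidAlgebra.of A Γ g with hy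
  have hyphi : nfl_phi A ρ y = (b : C) • ρ g := by
    rw [hy, map_smul, nfl_smulMC, nfl_phi_of]
  have hypsi : nfl_psi A ρ' y = 1 := by
    rw [hy, map_smul, nfl_smulMK, nfl_psi_of, hg, hbr, one_smul]
  have hym : (nfl_phi A ρ y) ^ m = 1 := by
    rw [hyphi, smul_pow, ← map_pow, hc, ← h1, smul_smul]
    have h3 : (b : C) ^ m * ((c' ^ m : A) : C) = 1 := by
      have h4 : (b ^ m * c' ^ m : A) = 1 := by rw [← mul_pow, mul_comm, hb, one_pow]
      exact congrArg Subtype.val h4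
    rw [h3, one_smul]
  set z : MonoidAlgebra A Γ := ∑ i ∈ Finset.range m, y ^ i with hz
  have hzpsi : nfl_psi A ρ' z = (m : IsLocalRing.ResidueField A) • 1 := by
    rw [hz, map_sum]
    have h3 : ∀ i ∈ Finset.range m, nfl_psi A ρ' (y ^ i) = 1 := fun i _ => by
      rw [map_pow, hypsi, one_pow]
    rw [Finset.sum_congr rfl h3, Finset.sum_const, Finset.card_range, ← Nat.cast_smul_eq_nsmul
      (IsLocalRing.ResidueField A)]
  have hzphi : nfl_phi A ρ z * (nfl_phi A ρ y - 1) = 0 := by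
    rw [hz, map_sum]
    have h3 : ∀ i ∈ Finset.range m, nfl_phi A ρ (y ^ i) = nfl_phi A ρ y ^ i := fun i _ => by
      rw [map_pow]
    rw [Finset.sum_congr rfl h3, geom_sum_mul, hym, sub_self]
  have h4 : (m : IsLocalRing.ResidueField A) ≠ 0 := by
    rw [Ne, CharP.cast_eq_zero_iff (IsLocalRing.ResidueField A) p]
    exact hm
  have h5 := nfs_cancel A hspan htr z h4 hzpsi hzphi
  rw [hyphi, sub_eq_zero] at h5
  refine ⟨c', ?_⟩
  have h6 : (c' : C) * (b : C) = 1 := congrArg Subtype.val hb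
  rw [← h5, smul_smul, h6, one_smul]

/-- a scalar matrix that is a sum of two matrices of rank one is zero -/
theorem nfs_rank {k : Type*} [Field k] {D : ℕ} (hD : 3 ≤ D) {c : k} {v f v' f' : Fin D → k}
    (h : c • (1 : Matrix (Fin D) (Fin D) k) = vecMulVec v f - vecMulVec v' f') : c = 0 := by
  by_contra hc
  obtain ⟨x, hx, h1, h2⟩ : ∃ x : Fin D → k, x ≠ 0 ∧ f ⬝ᵥ x = 0 ∧ f' ⬝ᵥ x = 0 := by
    let T : (Fin D → k) →ₗ[k] (Fin 2 → k) := (Matrix.of ![f, f']).mulVecLin
    have hT : LinearMap.ker T ≠ ⊥ := by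
      apply LinearMap.ker_ne_bot_of_finrank_lt
      rw [Module.finrank_fin_fun, Module.finrank_fin_fun]
      omega
    obtain ⟨x, hx, hx0⟩ := (Submodule.ne_bot_iff _).1 hT
    rw [LinearMap.mem_ker] at hx
    refine ⟨x, hx0, ?_, ?_⟩
    · exact congrFun hx 0
    · exact congrFun hx 1
  have h3 := congrArg (fun M => M.mulVec x) h
  simp only [Matrix.smul_mulVec, Matrix.one_mulVec, Matrix.sub_mulVec,
    Matrix.vecMulVec_mulVec, h1, h2] at h3
  simp at h3
  exact h3.elim hc hx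

end NFS

/-- NOT SCALAR (block NFS): a normal subgroup of finite index does not act by scalars. -/
theorem not_scalar_pr {C : Type*} [Field C] [IsAlgClosed C] [CharZero C] (A : ValuationSubring C)
    {p : ℕ} [Fact p.Prime] [CharP (IsLocalRing.ResidueField A) p] {Γ : Type*} [Group Γ] {D : ℕ}
    (hD : 3 ≤ D) (ρ : Γ →* Matrix (Fin D) (Fin D) C)
    (ρ' : Γ →* Matrix (Fin D) (Fin D) (IsLocalRing.ResidueField A))
    (hspan : Submodule.span (IsLocalRing.ResidueField A) (Set.range ρ') = ⊤)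
    (htr : ∀ γ, ∃ t : A, (t : C) = (ρ γ).trace ∧ IsLocalRing.residue A t = (ρ' γ).trace)
    (s : Γ) (hs : ρ' s = 1) (v f : Fin D → C) (hv : v ≠ 0) (hf : f ≠ 0)
    (hs1 : ρ s = 1 + vecMulVec v f)
    (hadj : Algebra.adjoin C (Set.range fun γ => ρ γ * ρ s * ρ γ⁻¹) = ⊤)
    (H : Subgroup Γ) [H.Normal] [H.FiniteIndex] (hH : ∀ h ∈ H, ∃ c : C, ρ h = c • 1) : False := by
  classical
  have hD0 : 0 < D := by omega
  have hinv : ∀ γ : Γ, ρ γ⁻¹ * ρ γ = 1 := fun γ => by rw [← map_mul, inv_mul_cancel, map_one]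
  have hinv' : ∀ γ : Γ, ρ γ * ρ γ⁻¹ = 1 := fun γ => by rw [← map_mul, mul_inv_cancel, map_one]
  -- the elements acting by scalars
  let N : Subgroup Γ :=
    { carrier := {g | ∃ c : C, ρ g = c • 1}
      one_mem' := ⟨1, by rw [map_one, one_smul]⟩
      mul_mem' := by
        rintro a b ⟨c, hc⟩ ⟨d, hd⟩
        exact ⟨c * d, by rw [map_mul, hc, hd, smul_mul_assoc, one_mul, smul_smul]⟩
      inv_mem' := by
        rintro a ⟨c, hc⟩
        have hc0 : c ≠ 0 := by
          intro h0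
          have h1 := hinv' a
          rw [hc, h0, zero_smul, zero_mul] at h1
          have : Nonempty (Fin D) := ⟨⟨0, hD0⟩⟩
          exact zero_ne_one h1
        refine ⟨c⁻¹, ?_⟩
        have h1 := hinv' a
        rw [hc, smul_mul_assoc, one_mul] at h1
        rw [← h1, smul_smul, inv_mul_cancel₀ hc0, one_smul] }
  have hmemN : ∀ g, g ∈ N ↔ ∃ c : C, ρ g = c • 1 := fun g => Iff.rfl
  have hNn : N.Normal := by
    refine ⟨fun n hn g => ?_⟩
    obtain ⟨c, hc⟩ := hn
    exact ⟨c, by rw [map_mul, map_mul, hc, mul_smul_comm, mul_one, smul_mul_assoc, hinv']⟩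
  have hHN : H ≤ N := fun h hh => hH h hh
  have hNf : N.FiniteIndex := Subgroup.finiteIndex_of_le hHN
  -- the principal congruence subgroup
  set P : Subgroup Γ := ρ'.ker with hP
  have hmemP : ∀ g, g ∈ P ↔ ρ' g = 1 := fun g => MonoidHom.mem_ker
  set Q : Subgroup (Γ ⧸ N) := P.map (QuotientGroup.mk' N) with hQ
  have hQp : IsPGroup p Q := by
    rintro ⟨q, hq⟩
    obtain ⟨g, hg, rfl⟩ := hq
    have hg1 : ρ' g = 1 := (hmemP g).1 hg
    set n := orderOf (QuotientGroup.mk' N g) with hn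
    have hn0 : n ≠ 0 := (orderOf_pos _).ne'
    obtain ⟨a, m, hm, hnm⟩ := Nat.exists_eq_pow_mul_and_not_dvd hn0 p (Fact.out : p.Prime).ne_one
    refine ⟨a, Subtype.ext ?_⟩
    show (QuotientGroup.mk' N g) ^ p ^ a = 1
    have h1 : ρ' (g ^ p ^ a) = 1 := by rw [map_pow, hg1, one_pow]
    have h2 : (g ^ p ^ a) ^ m ∈ N := by
      rw [← QuotientGroup.eq_one_iff, ← pow_mul, ← hnm]
      have h3 := pow_orderOf_eq_one (QuotientGroup.mk' N g)
      rw [← hn, ← map_pow] at h3
      exact h3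
    obtain ⟨c, hc⟩ := h2
    have h4 := nfs_prime A hD0 hspan htr h1 hm hc
    rw [← map_pow]
    exact (QuotientGroup.eq_one_iff _).2 h4
  have hsN : s ∉ N := by
    rintro ⟨c, hc⟩
    rw [hs1] at hc
    have h1 : (c - 1) • (1 : Matrix (Fin D) (Fin D) C) = vecMulVec v f - vecMulVec 0 0 := by
      rw [sub_smul, one_smul, ← hc, Matrix.zero_vecMulVec]
      abel
    have h2 := nfs_rank hD h1
    rw [h2, zero_smul, Matrix.zero_vecMulVec, sub_zero] at h1
    obtain ⟨i, hi⟩ := Function.ne_iff.1 hv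
    obtain ⟨j, hj⟩ := Function.ne_iff.1 hf
    exact mul_ne_zero hi hj (congrFun (congrFun h1 i) j).symm
  have hQnt : Nontrivial Q := by
    refine ⟨⟨⟨QuotientGroup.mk' N s, ⟨s, (hmemP s).2 hs, rfl⟩⟩, 1, ?_⟩⟩
    intro h
    exact hsN ((QuotientGroup.eq_one_iff _).1 (congrArg Subtype.val h))
  have : Finite (Γ ⧸ N) := Subgroup.finite_quotient_of_finiteIndex
  have hcen := hQp.center_nontrivial
  obtain ⟨⟨z, hz⟩, hz1⟩ := exists_ne (1 : Subgroup.center Q)
  obtain ⟨⟨q, hq⟩, rfl⟩ : ∃ q : Q, q = z := ⟨z, rfl⟩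
  obtain ⟨g, hgP, rfl⟩ := hq
  have hgN : g ∉ N := by
    intro h
    apply hz1
    refine Subtype.ext (Subtype.ext ?_)
    exact (QuotientGroup.eq_one_iff _).2 h
  -- `g` commutes with the conjugates of `s`
  have hcomm : ∀ γ : Γ, ρ g * (ρ γ * ρ s * ρ γ⁻¹) = (ρ γ * ρ s * ρ γ⁻¹) * ρ g := by
    intro γ
    set x := γ * s * γ⁻¹ with hx
    have hxP : x ∈ P := by
      rw [hmemP, hx, map_mul, map_mul, hs, mul_one, ← map_mul, mul_inv_cancel, map_one]
    have hxr : ρ x = ρ γ * ρ s * ρ γ⁻¹ := by rw [hx, map_mul, map_mul]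
    rw [← hxr]
    have h1 := Subgroup.mem_center_iff.1 hz ⟨QuotientGroup.mk' N x, ⟨x, hxP, rfl⟩⟩
    have h2 : QuotientGroup.mk' N (x * g) = QuotientGroup.mk' N (g * x) := by
      rw [map_mul, map_mul]
      exact congrArg Subtype.val h1
    have h3 : (x * g)⁻¹ * (g * x) ∈ N := QuotientGroup.eq.1 h2
    obtain ⟨c, hc⟩ := h3
    have h4 : ρ g * ρ x = c • (ρ x * ρ g) := by
      have h5 : ρ (x * g) * ρ ((x * g)⁻¹ * (g * x)) = ρ (g * x) := by
        rw [← map_mul, mul_inv_cancel_left]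
      rw [hc, mul_smul_comm, mul_one, map_mul ρ x g, map_mul ρ g x] at h5
      exact h5.symm
    have h6 : ρ x = 1 + vecMulVec (ρ γ *ᵥ v) (f ᵥ* ρ γ⁻¹) := by
      rw [hxr, hs1, mul_add, add_mul, mul_one, hinv', Matrix.mul_vecMulVec,
        Matrix.vecMulVec_mul]
    set v1 := ρ γ *ᵥ v
    set f1 := f ᵥ* ρ γ⁻¹
    have h7 : (c - 1) • (1 : Matrix (Fin D) (Fin D) C) =
        vecMulVec (ρ g *ᵥ v1) (f1 ᵥ* ρ g⁻¹) - vecMulVec (c • v1) f1 := by
      have h8 : ρ g * ρ x * ρ g⁻¹ = c • ρ x := by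
        rw [h4, smul_mul_assoc, mul_assoc, hinv', mul_one]
      rw [h6, mul_add, add_mul, mul_one, hinv', Matrix.mul_vecMulVec, Matrix.vecMulVec_mul,
        smul_add] at h8
      rw [Matrix.smul_vecMulVec, sub_smul, one_smul, sub_eq_sub_iff_add_eq_add, ← h8, add_comm]
    have h9 : c = 1 := by
      have := nfs_rank hD h7
      exact sub_eq_zero.1 this
    rw [h4, h9, one_smul]
  have hall : ∀ M : Matrix (Fin D) (Fin D) C, ρ g * M = M * ρ g := by
    intro M
    have hM : M ∈ Algebra.adjoin C (Set.range fun γ => ρ γ * ρ s * ρ γ⁻¹) := by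
      rw [hadj]
      exact Algebra.mem_top
    induction hM using Algebra.adjoin_induction with
    | mem x hx =>
      obtain ⟨γ, rfl⟩ := hx
      exact hcomm γ
    | algebraMap c => exact (Algebra.commutes c (ρ g)).symm
    | add x y _ _ hx hy => rw [mul_add, add_mul, hx, hy]
    | mul x y _ _ hx hy => rw [← mul_assoc, hx, mul_assoc, hy, mul_assoc]
  apply hgN
  obtain ⟨c, hc⟩ := Matrix.mem_range_scalar_iff_commute_single'.2 fun i j =>
    (hall (Matrix.single i j 1)).symm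
  refine ⟨c, ?_⟩
  rw [← hc]
  ext i j
  simp [Matrix.one_apply, Matrix.diagonal_apply]

end Pool.Agent.NF
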