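import Pool.Agent.Lib_helper29.NF.Defs

/-!
# Block NFL: from the residual representation to characteristic zero

`A` is a valuation ring of `C` with residue field `κ`. The group ring `R = A[Γ]` maps to the
matrices over `C` (`nfl_phi`) and over `κ` (`nfl_psi`), with compatible traces.
-/

set_option autoImplicit false

namespace Pool.Agent.NF

open Matrix

section NFL

variable {C : Type*} [Field C] (A : ValuationSubring C) {Γ : Type*} [Group Γ] {D : ℕ}
  (ρ : Γ →* Matrix (Fin D) (Fin D) C)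
  (ρ' : Γ →* Matrix (Fin D) (Fin D) (IsLocalRing.ResidueField A))

noncomputable def nfl_phi : MonoidAlgebra A Γ →ₐ[A] Matrix (Fin D) (Fin D) C :=
  MonoidAlgebra.lift A _ Γ ρ

noncomputable def nfl_psi :
    MonoidAlgebra A Γ →ₐ[A] Matrix (Fin D) (Fin D) (IsLocalRing.ResidueField A) :=
  MonoidAlgebra.lift A _ Γ ρ'

theorem nfl_phi_of (γ : Γ) : nfl_phi A ρ (MonoidAlgebra.of A Γ γ) = ρ γ := by
  rw [nfl_phi, MonoidAlgebra.lift_of]

theorem nfl_psi_of (γ : Γ) : nfl_psi A ρ' (MonoidAlgebra.of A Γ γ) = ρ' γ := by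
  rw [nfl_psi, MonoidAlgebra.lift_of]

theorem nfl_smulC (a : A) (x : C) : a • x = (a : C) * x := rfl

theorem nfl_smulK (a : A) (x : IsLocalRing.ResidueField A) :
    a • x = IsLocalRing.residue A a * x := by
  rw [Algebra.smul_def, IsLocalRing.ResidueField.algebraMap_eq]

theorem nfl_smulMC (a : A) (M : Matrix (Fin D) (Fin D) C) : a • M = (a : C) • M := by
  ext i j
  rfl

theorem nfl_smulMK (a : A) (M : Matrix (Fin D) (Fin D) (IsLocalRing.ResidueField A)) :
    a • M = IsLocalRing.residue A a • M := by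
  ext i j
  exact nfl_smulK A a (M i j)

variable {ρ ρ'}

theorem nfl_trace (htr : ∀ γ, ∃ t : A, (t : C) = (ρ γ).trace ∧
    IsLocalRing.residue A t = (ρ' γ).trace) (r : MonoidAlgebra A Γ) :
    ∃ t : A, (t : C) = (nfl_phi A ρ r).trace ∧
      IsLocalRing.residue A t = (nfl_psi A ρ' r).trace := by
  induction r using MonoidAlgebra.induction_on with
  | of g =>
    obtain ⟨t, h1, h2⟩ := htr g
    exact ⟨t, by rw [nfl_phi_of, h1], by rw [nfl_psi_of, h2]⟩
  | add x y hx hy =>
    obtain ⟨t, h1, h2⟩ := hx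
    obtain ⟨t', h3, h4⟩ := hy
    exact ⟨t + t', by rw [map_add, trace_add, ← h1, ← h3]; rfl,
      by rw [map_add, map_add, trace_add, ← h2, ← h4]⟩
  | smul a x hx =>
    obtain ⟨t, h1, h2⟩ := hx
    refine ⟨a * t, ?_, ?_⟩
    · rw [map_smul, nfl_smulMC, trace_smul, ← h1]
      rfl
    · rw [map_smul, nfl_smulMK, trace_smul, ← h2, map_mul, smul_eq_mul]

theorem nfl_surj (hspan : Submodule.span (IsLocalRing.ResidueField A) (Set.range ρ') = ⊤)
    (M : Matrix (Fin D) (Fin D) (IsLocalRing.ResidueField A)) : ∃ r, nfl_psi A ρ' r = M := by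
  have hM : M ∈ Submodule.span (IsLocalRing.ResidueField A) (Set.range ρ') := by
    rw [hspan]
    exact Submodule.mem_top
  induction hM using Submodule.span_induction with
  | mem x hx =>
    obtain ⟨γ, rfl⟩ := hx
    exact ⟨_, nfl_psi_of A ρ' γ⟩
  | zero => exact ⟨0, map_zero _⟩
  | add x y _ _ hx hy =>
    obtain ⟨r, hr⟩ := hx
    obtain ⟨r', hr'⟩ := hy
    exact ⟨r + r', by rw [map_add, hr, hr']⟩
  | smul a x _ hx =>
    obtain ⟨r, hr⟩ := hx
    obtain ⟨a, rfl⟩ := IsLocalRing.residue_surjective a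
    exact ⟨a • r, by rw [map_smul, nfl_smulMK, hr]⟩

theorem nfl_ker (hspan : Submodule.span (IsLocalRing.ResidueField A) (Set.range ρ') = ⊤)
    (htr : ∀ γ, ∃ t : A, (t : C) = (ρ γ).trace ∧ IsLocalRing.residue A t = (ρ' γ).trace)
    {r : MonoidAlgebra A Γ} (hr : nfl_phi A ρ r = 0) : nfl_psi A ρ' r = 0 := by
  refine Matrix.ext_iff_trace_mul_right.2 fun M => ?_
  obtain ⟨r', rfl⟩ := nfl_surj A hspan M
  obtain ⟨t, h1, h2⟩ := nfl_trace A htr (r * r')
  rw [map_mul, hr, zero_mul, trace_zero] at h1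
  rw [zero_mul, trace_zero, ← map_mul, ← h2]
  have h3 : t = 0 := Subtype.ext h1
  rw [h3, map_zero]

theorem nfl_scale {ι : Type*} [Finite ι] (c : ι → C) (hc : ∃ a, c a ≠ 0) :
    ∃ a0, c a0 ≠ 0 ∧ ∃ t : ι → A, t a0 = 1 ∧ ∀ a, (t a : C) = (c a0)⁻¹ * c a := by
  obtain ⟨a1, ha1⟩ := hc
  have : Nonempty ι := ⟨a1⟩
  obtain ⟨a0, h0⟩ := Finite.exists_max fun a => A.valuation (c a)
  have hne : c a0 ≠ 0 := by
    intro h
    have h1 := h0 a1
    rw [h, map_zero] at h1
    exact ha1 ((map_eq_zero _).1 (le_antisymm h1 zero_le))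
  have hmem : ∀ a, (c a0)⁻¹ * c a ∈ A := by
    intro a
    rw [← A.valuation_le_one_iff, map_mul, map_inv₀]
    have hv : A.valuation (c a0) ≠ 0 := (map_ne_zero _).2 hne
    calc (A.valuation (c a0))⁻¹ * A.valuation (c a)
        ≤ (A.valuation (c a0))⁻¹ * A.valuation (c a0) := mul_le_mul_right (h0 a) _
      _ = 1 := inv_mul_cancel₀ hv
  refine ⟨a0, hne, fun a => ⟨_, hmem a⟩, ?_, fun a => rfl⟩
  exact Subtype.ext (inv_mul_cancel₀ hne)

theorem nfl_basis (hspan : Submodule.span (IsLocalRing.ResidueField A) (Set.range ρ') = ⊤)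
    (htr : ∀ γ, ∃ t : A, (t : C) = (ρ γ).trace ∧ IsLocalRing.residue A t = (ρ' γ).trace)
    (r : Fin D × Fin D → MonoidAlgebra A Γ)
    (hr : ∀ a, nfl_psi A ρ' (r a) = Matrix.single a.1 a.2 1) :
    Submodule.span C (Set.range fun a => nfl_phi A ρ (r a)) = ⊤ := by
  have hli : LinearIndependent C (fun a => nfl_phi A ρ (r a)) := by
    rw [Fintype.linearIndependent_iff]
    intro c hc
    by_contra hne
    push Not at hne
    obtain ⟨a0, -, t, h1, h2⟩ := nfl_scale A c hne
    have h3 : nfl_phi A ρ (∑ a, t a • r a) = 0 := by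
      rw [map_sum]
      have h4 : ∀ a, nfl_phi A ρ (t a • r a) = (c a0)⁻¹ • (c a • nfl_phi A ρ (r a)) := by
        intro a
        rw [map_smul, nfl_smulMC, h2, smul_smul]
      rw [Finset.sum_congr rfl fun a _ => h4 a, ← Finset.smul_sum, hc, smul_zero]
    have h5 := nfl_ker A hspan htr h3
    rw [map_sum] at h5
    have h6 := congrFun (congrFun h5 a0.1) a0.2
    rw [Matrix.sum_apply, Finset.sum_eq_single a0] at h6
    · rw [map_smul, nfl_smulMK, hr, h1, map_one, one_smul, Matrix.single_apply_same] at h6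
      exact one_ne_zero h6
    · intro a _ ha
      rw [map_smul, nfl_smulMK, hr, Matrix.smul_apply, Matrix.single_apply_of_ne, smul_zero]
      intro h
      exact ha (Prod.ext h.1 h.2)
    · intro h
      exact absurd (Finset.mem_univ _) h
  refine hli.span_eq_top_of_card_eq_finrank' ?_
  rw [Module.finrank_matrix, Module.finrank_self]
  simp

/-- a nonzero matrix `E` with `E y E ∈ κ E` for all `y` has rank one -/
theorem nfl_rank_one {k : Type*} [Field k] {D : ℕ} (E : Matrix (Fin D) (Fin D) k) (hE : E ≠ 0)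
    (h : ∀ y, ∃ c : k, E * y * E = c • E) :
    ∃ v f : Fin D → k, v ≠ 0 ∧ f ≠ 0 ∧ E = vecMulVec v f := by
  have h1 : ∃ a b, E a b ≠ 0 := by
    by_contra hne
    push Not at hne
    exact hE (Matrix.ext hne)
  obtain ⟨a, b, hab⟩ := h1
  obtain ⟨c, hc⟩ := h (Matrix.single b a 1)
  have h2 : E * Matrix.single b a 1 * E = vecMulVec (fun i => E i b) (fun j => E a j) := by
    ext i j
    rw [Matrix.mul_apply, Finset.sum_eq_single a]
    · rw [Matrix.mul_apply, Finset.sum_eq_single b]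
      · rw [Matrix.single_apply_same, mul_one, vecMulVec_apply]
      · intro x _ hx
        rw [Matrix.single_apply_of_ne, mul_zero]
        exact fun h => hx h.1.symm
      · intro h
        exact absurd (Finset.mem_univ _) h
    · intro x _ hx
      rw [Matrix.mul_apply, Finset.sum_eq_zero, zero_mul]
      intro y _
      rw [Matrix.single_apply_of_ne, mul_zero]
      exact fun h => hx h.2.symm
    · intro h
      exact absurd (Finset.mem_univ _) h
  rw [h2] at hc
  have hc0 : c ≠ 0 := by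
    intro h0
    have h3 := congrFun (congrFun hc a) b
    rw [h0, zero_smul, vecMulVec_apply, Matrix.zero_apply] at h3
    exact mul_ne_zero hab hab h3
  refine ⟨fun i => c⁻¹ * E i b, fun j => E a j, ?_, ?_, ?_⟩
  · intro h3
    exact mul_ne_zero (inv_ne_zero hc0) hab (congrFun h3 a)
  · intro h3
    exact hab (congrFun h3 b)
  · ext i j
    have h3 := congrFun (congrFun hc i) j
    rw [vecMulVec_apply, Matrix.smul_apply, smul_eq_mul] at h3
    rw [vecMulVec_apply, mul_assoc, h3, ← mul_assoc, inv_mul_cancel₀ hc0, one_mul]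

variable (ρ ρ')

/-- the reductions of the elements of the group ring that lie in the algebra `𝒜` -/
noncomputable def nfl_red (𝒜 : Subalgebra C (Matrix (Fin D) (Fin D) C)) :
    Subalgebra (IsLocalRing.ResidueField A)
      (Matrix (Fin D) (Fin D) (IsLocalRing.ResidueField A)) where
  carrier := {M | ∃ r, nfl_phi A ρ r ∈ 𝒜 ∧ nfl_psi A ρ' r = M}
  mul_mem' := by
    rintro _ _ ⟨r, h1, rfl⟩ ⟨r', h2, rfl⟩
    exact ⟨r * r', by rw [map_mul]; exact 𝒜.mul_mem h1 h2, map_mul _ _ _⟩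
  add_mem' := by
    rintro _ _ ⟨r, h1, rfl⟩ ⟨r', h2, rfl⟩
    exact ⟨r + r', by rw [map_add]; exact 𝒜.add_mem h1 h2, map_add _ _ _⟩
  algebraMap_mem' := by
    intro c
    obtain ⟨a, rfl⟩ := IsLocalRing.residue_surjective c
    refine ⟨a • 1, ?_, ?_⟩
    · rw [map_smul, map_one, nfl_smulMC]
      exact 𝒜.smul_mem 𝒜.one_mem _
    · rw [map_smul, map_one, nfl_smulMK, Algebra.algebraMap_eq_smul_one]

variable {ρ ρ'}

/-- LIFT (block NFL), without the hypothesis `ρ' s = 1`. -/
theorem lift_top_pr {C : Type*} [Field C] (A : ValuationSubring C) {Γ : Type*} [Group Γ] {D : ℕ}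
    (ρ : Γ →* Matrix (Fin D) (Fin D) C)
    (ρ' : Γ →* Matrix (Fin D) (Fin D) (IsLocalRing.ResidueField A))
    (hspan : Submodule.span (IsLocalRing.ResidueField A) (Set.range ρ') = ⊤)
    (htr : ∀ γ, ∃ t : A, (t : C) = (ρ γ).trace ∧ IsLocalRing.residue A t = (ρ' γ).trace)
    (hQ : ∀ B : Subalgebra (IsLocalRing.ResidueField A)
        (Matrix (Fin D) (Fin D) (IsLocalRing.ResidueField A)),
      (∀ γ, ∀ x ∈ B, ρ' γ * x * ρ' γ⁻¹ ∈ B) → ∀ v f : Fin D → IsLocalRing.ResidueField A,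
        v ≠ 0 → f ≠ 0 → vecMulVec v f ∈ B → B = ⊤)
    (s : Γ) (v f : Fin D → C) (hv : v ≠ 0) (hf : f ≠ 0)
    (hs1 : ρ s = 1 + vecMulVec v f) :
    Algebra.adjoin C (Set.range fun γ => ρ γ * ρ s * ρ γ⁻¹) = ⊤ := by
  classical
  set 𝒜 := Algebra.adjoin C (Set.range fun γ => ρ γ * ρ s * ρ γ⁻¹) with h𝒜
  have hinv : ∀ γ : Γ, ρ γ⁻¹ * ρ γ = 1 := fun γ => by rw [← map_mul, inv_mul_cancel, map_one]
  have hinv' : ∀ γ : Γ, ρ γ * ρ γ⁻¹ = 1 := fun γ => by rw [← map_mul, mul_inv_cancel, map_one]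
  have hnorm : ∀ γ, ∀ x ∈ 𝒜, ρ γ * x * ρ γ⁻¹ ∈ 𝒜 := by
    intro γ x hx
    rw [h𝒜] at hx ⊢
    induction hx using Algebra.adjoin_induction with
    | mem x hx =>
      obtain ⟨δ, rfl⟩ := hx
      refine Algebra.subset_adjoin ⟨γ * δ, ?_⟩
      show ρ (γ * δ) * ρ s * ρ (γ * δ)⁻¹ = ρ γ * (ρ δ * ρ s * ρ δ⁻¹) * ρ γ⁻¹
      rw [_root_.mul_inv_rev, map_mul, map_mul]
      simp only [mul_assoc]
    | algebraMap c =>
      rw [Algebra.algebraMap_eq_smul_one, mul_smul_comm, mul_one, smul_mul_assoc, hinv']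
      exact Subalgebra.smul_mem _ (Subalgebra.one_mem _) _
    | add x y _ _ hx hy =>
      rw [mul_add, add_mul]
      exact Subalgebra.add_mem _ hx hy
    | mul x y _ _ hx hy =>
      have h1 : ρ γ * (x * y) * ρ γ⁻¹ = (ρ γ * x * ρ γ⁻¹) * (ρ γ * y * ρ γ⁻¹) := by
        calc ρ γ * (x * y) * ρ γ⁻¹ = ρ γ * x * 1 * y * ρ γ⁻¹ := by
              rw [mul_one]; simp only [mul_assoc]
          _ = ρ γ * x * (ρ γ⁻¹ * ρ γ) * y * ρ γ⁻¹ := by rw [hinv]
          _ = _ := by simp only [mul_assoc]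
      rw [h1]
      exact Subalgebra.mul_mem _ hx hy
  -- lift the matrix units
  have hr0 : ∀ a : Fin D × Fin D, ∃ r, nfl_psi A ρ' r = Matrix.single a.1 a.2 1 :=
    fun a => nfl_surj A hspan _
  choose r0 hr0 using hr0
  have hb := nfl_basis A hspan htr r0 hr0
  -- scale `ρ s - 1` into the image of the group ring
  have hX0 : vecMulVec v f ∈ Submodule.span C (Set.range fun a => nfl_phi A ρ (r0 a)) := by
    rw [hb]
    exact Submodule.mem_top
  obtain ⟨c, hc⟩ := (Submodule.mem_span_range_iff_exists_fun C).1 hX0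
  have hXne : vecMulVec v f ≠ 0 := by
    intro h
    obtain ⟨i, hi⟩ := Function.ne_iff.1 hv
    obtain ⟨j, hj⟩ := Function.ne_iff.1 hf
    exact mul_ne_zero hi hj (congrFun (congrFun h i) j)
  have hcne : ∃ a, c a ≠ 0 := by
    by_contra hne
    push Not at hne
    apply hXne
    rw [← hc]
    exact Finset.sum_eq_zero fun a _ => by rw [hne, zero_smul]
  obtain ⟨a0, ha0, t, ht1, ht2⟩ := nfl_scale A c hcne
  set x : MonoidAlgebra A Γ := ∑ a, t a • r0 a with hx
  have hphix : nfl_phi A ρ x = (c a0)⁻¹ • vecMulVec v f := by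
    rw [hx, map_sum, ← hc, Finset.smul_sum]
    refine Finset.sum_congr rfl fun a _ => ?_
    rw [map_smul, nfl_smulMC, ht2, smul_smul]
  have hpsix : nfl_psi A ρ' x ≠ 0 := by
    intro h
    have h6 := congrFun (congrFun h a0.1) a0.2
    rw [hx, map_sum, Matrix.sum_apply, Finset.sum_eq_single a0] at h6
    · rw [map_smul, nfl_smulMK, hr0, ht1, map_one, one_smul, Matrix.single_apply_same] at h6
      exact one_ne_zero h6
    · intro a _ ha
      rw [map_smul, nfl_smulMK, hr0, Matrix.smul_apply, Matrix.single_apply_of_ne, smul_zero]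
      intro h
      exact ha (Prod.ext h.1 h.2)
    · intro h
      exact absurd (Finset.mem_univ _) h
  -- the reduction has rank one
  have hrank : ∀ y, ∃ c' : IsLocalRing.ResidueField A,
      nfl_psi A ρ' x * y * nfl_psi A ρ' x = c' • nfl_psi A ρ' x := by
    intro y
    obtain ⟨r, rfl⟩ := nfl_surj A hspan y
    obtain ⟨τ, hτ, -⟩ := nfl_trace A htr (r * x)
    refine ⟨IsLocalRing.residue A τ, ?_⟩
    have h1 : nfl_phi A ρ (x * r * x - τ • x) = 0 := by
      rw [map_sub, map_smul, nfl_smulMC, hτ, map_mul, map_mul, map_mul, hphix, sub_eq_zero]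
      generalize nfl_phi A ρ r = M
      rw [smul_mul_assoc, smul_mul_assoc, mul_smul_comm, mul_smul_comm, trace_smul, smul_smul,
        smul_smul, smul_eq_mul]
      have h2 : vecMulVec v f * M * vecMulVec v f = (M * vecMulVec v f).trace • vecMulVec v f := by
        rw [mul_assoc, Matrix.mul_vecMulVec, Matrix.vecMulVec_mul_vecMulVec,
          Matrix.trace_vecMulVec, dotProduct_comm]
        ext i j
        simp [vecMulVec_apply]
        try ring
      rw [h2, smul_smul]
      congr 1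
      ring
    have h2 := nfl_ker A hspan htr h1
    rw [map_sub, map_smul, nfl_smulMK, map_mul, map_mul, sub_eq_zero] at h2
    exact h2
  obtain ⟨v', f', hv', hf', hE⟩ := nfl_rank_one _ hpsix hrank
  -- the reductions of the elements of `𝒜`
  have hB : nfl_red A ρ ρ' 𝒜 = ⊤ := by
    refine hQ _ ?_ v' f' hv' hf' ?_
    · rintro γ _ ⟨r, hr1, rfl⟩
      refine ⟨MonoidAlgebra.of A Γ γ * r * MonoidAlgebra.of A Γ γ⁻¹, ?_, ?_⟩
      · rw [map_mul, map_mul, nfl_phi_of, nfl_phi_of]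
        exact hnorm γ _ hr1
      · rw [map_mul, map_mul, nfl_psi_of, nfl_psi_of]
    · refine ⟨x, ?_, hE⟩
      rw [hphix]
      have h1 : vecMulVec v f = ρ 1 * ρ s * ρ 1⁻¹ - 1 := by
        rw [inv_one, map_one, one_mul, mul_one, hs1, add_sub_cancel_left]
      rw [h1]
      refine Subalgebra.smul_mem _ (Subalgebra.sub_mem _ ?_ (Subalgebra.one_mem _)) _
      exact Algebra.subset_adjoin ⟨1, rfl⟩
  have hr1 : ∀ a : Fin D × Fin D, ∃ r, nfl_phi A ρ r ∈ 𝒜 ∧
      nfl_psi A ρ' r = Matrix.single a.1 a.2 1 := by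
    intro a
    have h1 : (Matrix.single a.1 a.2 1 :
        Matrix (Fin D) (Fin D) (IsLocalRing.ResidueField A)) ∈ nfl_red A ρ ρ' 𝒜 := by
      rw [hB]
      exact Algebra.mem_top
    exact h1
  choose r1 hr1 using hr1
  have hb1 := nfl_basis A hspan htr r1 fun a => (hr1 a).2
  refine eq_top_iff.2 fun M _ => ?_
  have hM : M ∈ Submodule.span C (Set.range fun a => nfl_phi A ρ (r1 a)) := by
    rw [hb1]
    exact Submodule.mem_top
  have hle : Submodule.span C (Set.range fun a => nfl_phi A ρ (r1 a)) ≤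
      Subalgebra.toSubmodule 𝒜 := by
    rw [Submodule.span_le]
    rintro _ ⟨a, rfl⟩
    exact (hr1 a).1
  exact hle hM

end NFL

end Pool.Agent.NF
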